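import Mathlib
import Pool.Agent.V1178.DE.Est
set_option autoImplicit false

/-!
# A bounded Fourier transform with a non-integrable defect exponent

Let `A` be the union of the unit intervals `[4^j, 4^j + 1]`, `j ≥ 1`, let `p = 2` on `A` and
`p = 4/3` outside `A`, and let `q = 4`. The Fourier transform maps `L^{p(·)}(ℝ)` boundedly to
`L^{q(·)}(ℝ)`. The defect exponent `r` is equal to `4` on the set `A` of infinite measure, and so
the constant function `1` does not belong to `L^{r(·)}(ℝ)`.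
-/

namespace Pool.Agent.Results.MP_598c7e_an.DefectNotIntegrable

open MeasureTheory Set FourierTransform Filter
open scoped ENNReal NNReal Topology

/-- Exponents: measurable functions with values in `[1, ∞]`. -/
def Exponent (p : ℝ → ℝ≥0∞) : Prop := Measurable p ∧ ∀ x, 1 ≤ p x

/-- The modular `∫_{p < ∞} |f|^{p(x)} dx + ‖f‖_{L^∞(p = ∞)}`. -/
noncomputable def rho (p : ℝ → ℝ≥0∞) (f : ℝ → ℂ) : ℝ≥0∞ :=
  (∫⁻ x in {x | p x ≠ ∞}, ‖f x‖ₑ ^ (p x).toReal) + eLpNormEssSup f (volume.restrict {x | p x = ∞})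

/-- The space `L^{p(·)}(ℝ)`. -/
def MemV (p : ℝ → ℝ≥0∞) (f : ℝ → ℂ) : Prop :=
  AEStronglyMeasurable f volume ∧ ∃ lam : ℝ, 0 < lam ∧ rho p (fun x => f x / lam) < ∞

/-- The norm `‖f‖_{p(·)} = inf {λ > 0 : rho_p(f/λ) ≤ 1}`. -/
noncomputable def normV (p : ℝ → ℝ≥0∞) (f : ℝ → ℂ) : ℝ≥0∞ :=
  ⨅ (lam : ℝ) (_ : 0 < lam ∧ rho p (fun x => f x / lam) ≤ 1), ENNReal.ofReal lam

/-- The Fourier transform maps `L^{p(·)}` boundedly to `L^{q(·)}`. -/
def FourierBounded (p q : ℝ → ℝ≥0∞) : Prop :=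
  ∃ C : ℝ≥0, ∀ f : ℝ → ℂ, Integrable f → MemV p f → normV q (𝓕 f) ≤ C * normV p f

/-- The defect exponent `r`: `1/r(x) = 1/p_- - 1/p(x)`, where `p_-` is the essential infimum. -/
noncomputable def defectR (p : ℝ → ℝ≥0∞) (x : ℝ) : ℝ≥0∞ := ((essInf p volume)⁻¹ - (p x)⁻¹)⁻¹

/-- The defect exponent `s`: `1/s(x) = 1/q(x) - 1/(p_-)'`, where `1/(p_-)' = 1 - 1/p_-`. -/
noncomputable def defectS (p q : ℝ → ℝ≥0∞) (x : ℝ) : ℝ≥0∞ :=
  ((q x)⁻¹ - (1 - (essInf p volume)⁻¹))⁻¹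

open Pool.Agent.V1178.DE

/-- the exponent `p` -/
noncomputable def pp (x : ℝ) : ℝ≥0∞ := AA.indicator (fun _ => ENNReal.ofReal (2 / 3)) x + ENNReal.ofReal (4 / 3)

theorem pp_mem {x : ℝ} (h : x ∈ AA) : pp x = ENNReal.ofReal 2 := by
  unfold pp
  rw [indicator_of_mem h, ← ENNReal.ofReal_add (by norm_num) (by norm_num)]
  norm_num

theorem pp_notMem {x : ℝ} (h : x ∉ AA) : pp x = ENNReal.ofReal (4 / 3) := by
  unfold pp
  rw [indicator_of_notMem h, zero_add]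

theorem pp_fin (x : ℝ) : pp x ≠ ∞ := by
  by_cases h : x ∈ AA
  · rw [pp_mem h]; exact ENNReal.ofReal_ne_top
  · rw [pp_notMem h]; exact ENNReal.ofReal_ne_top

theorem pp_ge (x : ℝ) : ENNReal.ofReal (4 / 3) ≤ pp x := le_add_self

theorem pp_exp : Exponent pp := by
  refine ⟨(measurable_const.indicator AA_meas).add measurable_const, fun x => ?_⟩
  refine le_trans ?_ (pp_ge x)
  rw [← ENNReal.ofReal_one]
  exact ENNReal.ofReal_le_ofReal (by norm_num)

theorem pp_inf : essInf pp volume = ENNReal.ofReal (4 / 3) := by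
  apply le_antisymm
  · have h1 : ∀ᵐ y, essInf pp volume ≤ pp y := ae_essInf_le
    have h2 : volume (Ioo (0 : ℝ) 1) ≠ 0 := by rw [Real.volume_Ioo]; simp
    obtain ⟨y, hy, hy2⟩ : ∃ y ∈ Ioo (0 : ℝ) 1, essInf pp volume ≤ pp y := by
      by_contra hc
      push Not at hc
      apply h2
      refine measure_mono_null (fun y hy => ?_) (ae_iff.mp h1)
      exact not_le.mpr (hc y hy)
    have h3 : y ∉ AA := by
      intro h
      obtain ⟨i, hi⟩ := mem_iUnion.mp h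
      have : (1 : ℝ) ≤ 4 ^ (i + 1) := one_le_pow₀ (by norm_num)
      linarith [hi.1, hy.2]
    rwa [pp_notMem h3] at hy2
  · exact le_essInf_of_ae_le _ (Eventually.of_forall pp_ge)

theorem defectR_mem {x : ℝ} (h : x ∈ AA) : defectR pp x = ENNReal.ofReal 4 := by
  unfold defectR
  rw [pp_inf, pp_mem h, ← ENNReal.ofReal_inv_of_pos (by norm_num),
    ← ENNReal.ofReal_inv_of_pos (by norm_num), ← ENNReal.ofReal_sub _ (by norm_num),
    ← ENNReal.ofReal_inv_of_pos (by norm_num)]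
  norm_num

theorem not_mem : ¬ MemV (defectR pp) (fun _ => 1) := by
  rintro ⟨_, lam, hlam, hfin⟩
  have h1 : ∫⁻ x in {x | defectR pp x ≠ ∞}, ‖(1 : ℂ) / lam‖ₑ ^ (defectR pp x).toReal = ∞ := by
    have hsub : AA ⊆ {x | defectR pp x ≠ ∞} := fun x hx => by
      rw [mem_ofPred_eq, defectR_mem hx]; exact ENNReal.ofReal_ne_top
    have h2 : ∫⁻ x in AA, ‖(1 : ℂ) / lam‖ₑ ^ (defectR pp x).toReal = ∞ := by
      have h3 : ∫⁻ x in AA, ‖(1 : ℂ) / lam‖ₑ ^ (defectR pp x).toReal =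
          ∫⁻ _ in AA, ‖(1 : ℂ) / lam‖ₑ ^ (4 : ℝ) := by
        refine setLIntegral_congr_fun AA_meas fun x hx => ?_
        rw [defectR_mem hx, ENNReal.toReal_ofReal (by norm_num)]
      rw [h3, setLIntegral_const, AA_vol, ENNReal.mul_top]
      have h0 : ‖(1 : ℂ) / lam‖ₑ ≠ 0 := by
        rw [enorm_ne_zero]
        have : (lam : ℂ) ≠ 0 := by exact_mod_cast hlam.ne'
        exact one_div_ne_zero this
      simpa using h0
    have h5 := lintegral_mono_set (μ := volume)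
      (f := fun x => ‖(1 : ℂ) / lam‖ₑ ^ (defectR pp x).toReal) hsub
    rw [h2] at h5
    exact top_le_iff.mp h5
  unfold rho at hfin
  rw [h1, top_add] at hfin
  exact lt_irrefl _ hfin

/-- the estimate for one function of modular at most one -/
theorem unit_bound (h : ℝ → ℂ) (hm : Measurable h) (hi : Integrable h) (hr : rho pp h ≤ 1) :
    ∫⁻ ξ, ‖𝓕 h ξ‖ₑ ^ 4 ≤ 40 := by
  have hset : {x | pp x ≠ ∞} = univ := by
    ext x; simp [pp_fin x]
  have hr1 : ∫⁻ x, ‖h x‖ₑ ^ (pp x).toReal ≤ 1 := by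
    refine le_trans ?_ hr
    unfold rho
    rw [hset, Measure.restrict_univ]
    exact le_self_add
  set h1 : ℝ → ℂ := AA.indicator h with hh1
  set h2 : ℝ → ℂ := AAᶜ.indicator h with hh2
  have hm1 : Measurable h1 := hm.indicator AA_meas
  have hm2 : Measurable h2 := hm.indicator AA_meas.compl
  have hi1 : Integrable h1 := hi.indicator AA_meas
  have hi2 : Integrable h2 := hi.indicator AA_meas.compl
  have b1 : ∫⁻ x, ‖h1 x‖ₑ ^ 2 ≤ 1 := by
    refine (lintegral_mono fun x => ?_).trans hr1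
    by_cases hx : x ∈ AA
    · rw [hh1, indicator_of_mem hx, pp_mem hx, ENNReal.toReal_ofReal (by norm_num), ENNReal.rpow_ofNat]
    · rw [hh1, indicator_of_notMem hx]; simp
  have b2 : ∫⁻ x, ‖h2 x‖ₑ ^ (4 / 3 : ℝ) ≤ 1 := by
    refine (lintegral_mono fun x => ?_).trans hr1
    by_cases hx : x ∈ AA
    · rw [hh2, indicator_of_notMem (by simpa using hx), enorm_zero, ENNReal.zero_rpow_of_pos (by norm_num)]
      exact bot_le
    · rw [hh2, indicator_of_mem (by simpa using hx), pp_notMem hx, ENNReal.toReal_ofReal (by norm_num)]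
  have c1 : ∫⁻ ξ, ‖𝓕 h1 ξ‖ₑ ^ 4 ≤ 4 := by
    refine (key h1 hi1).trans ((second h1 hm1 AA AA_meas (fun x hx => indicator_of_notMem hx _) 4
      AA_sum).trans ?_)
    calc (∫⁻ x, ‖h1 x‖ₑ ^ 2) ^ 2 * 4 ≤ 1 ^ 2 * 4 := mul_le_mul' (pow_le_pow_left₀ (by simp) b1 2) le_rfl
      _ = 4 := by norm_num
  have c2 : ∫⁻ ξ, ‖𝓕 h2 ξ‖ₑ ^ 4 ≤ 1 := by
    refine (key h2 hi2).trans ((first h2 hm2).trans ?_)
    calc (∫⁻ x, ‖h2 x‖ₑ ^ (4 / 3 : ℝ)) ^ 3 ≤ 1 ^ 3 := pow_le_pow_left₀ (by simp) b2 3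
      _ = 1 := by norm_num
  have hsum : ∀ ξ, 𝓕 h ξ = 𝓕 h1 ξ + 𝓕 h2 ξ := by
    intro ξ
    have e : h = h1 + h2 := (indicator_self_add_compl AA h).symm
    rw [e, Real.fourier_eq', Real.fourier_eq', Real.fourier_eq', ← integral_add]
    · refine integral_congr_ae (Eventually.of_forall fun x => ?_)
      simp only [Pi.add_apply, smul_add]
    · refine hi1.bdd_mul (c := 1) ?_ (Eventually.of_forall fun x =>
        (Complex.norm_exp_ofReal_mul_I _).le)
      exact (by fun_prop : Continuous _).aestronglyMeasurable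
    · refine hi2.bdd_mul (c := 1) ?_ (Eventually.of_forall fun x =>
        (Complex.norm_exp_ofReal_mul_I _).le)
      exact (by fun_prop : Continuous _).aestronglyMeasurable
  have hc : ∀ f : ℝ → ℂ, Integrable f → Continuous (𝓕 f) := fun f hf =>
    VectorFourier.fourierIntegral_continuous (L := innerₗ ℝ) Real.continuous_fourierChar
        continuous_inner hf
  have hpt : ∀ ξ, ‖𝓕 h ξ‖ₑ ^ 4 ≤ 8 * ‖𝓕 h1 ξ‖ₑ ^ 4 + 8 * ‖𝓕 h2 ξ‖ₑ ^ 4 := by
    intro ξ
    have h3 : ‖𝓕 h ξ‖ₑ ≤ ‖𝓕 h1 ξ‖ₑ + ‖𝓕 h2 ξ‖ₑ := by rw [hsum]; exact enorm_add_le _ _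
    refine (pow_le_pow_left₀ (by simp) h3 4).trans ?_
    rw [← ofReal_norm, ← ofReal_norm, ← ENNReal.ofReal_add (norm_nonneg _) (norm_nonneg _),
      ← ENNReal.ofReal_pow (by positivity), ← ENNReal.ofReal_pow (norm_nonneg _),
      ← ENNReal.ofReal_pow (norm_nonneg _), show (8 : ℝ≥0∞) = ENNReal.ofReal 8 by norm_num,
      ← ENNReal.ofReal_mul (by norm_num), ← ENNReal.ofReal_mul (by norm_num),
      ← ENNReal.ofReal_add (by positivity) (by positivity)]
    refine ENNReal.ofReal_le_ofReal ?_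
    have a0 := norm_nonneg (𝓕 h1 ξ)
    have b0 := norm_nonneg (𝓕 h2 ξ)
    nlinarith [sq_nonneg (‖𝓕 h1 ξ‖ - ‖𝓕 h2 ξ‖), sq_nonneg (‖𝓕 h1 ξ‖ ^ 2 - ‖𝓕 h2 ξ‖ ^ 2),
      mul_nonneg a0 b0, sq_nonneg (‖𝓕 h1 ξ‖ * ‖𝓕 h2 ξ‖),
      mul_nonneg (mul_nonneg a0 b0) (sq_nonneg (‖𝓕 h1 ξ‖ - ‖𝓕 h2 ξ‖))]
  refine (lintegral_mono hpt).trans ?_
  rw [lintegral_add_left, lintegral_const_mul, lintegral_const_mul]
  · calc 8 * (∫⁻ ξ, ‖𝓕 h1 ξ‖ₑ ^ 4) + 8 * (∫⁻ ξ, ‖𝓕 h2 ξ‖ₑ ^ 4) ≤ 8 * 4 + 8 * 1 :=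
        add_le_add (mul_le_mul' le_rfl c1) (mul_le_mul' le_rfl c2)
      _ = 40 := by norm_num
  · exact (hc h2 hi2).measurable.enorm.pow_const 4
  · exact (hc h1 hi1).measurable.enorm.pow_const 4
  · exact ((hc h1 hi1).measurable.enorm.pow_const 4).const_mul 8

theorem fourier_div (f : ℝ → ℂ) (c : ℂ) (ξ : ℝ) : 𝓕 (fun x => f x / c) ξ = 𝓕 f ξ / c := by
  rw [Real.fourier_eq', Real.fourier_eq', ← integral_div]
  refine integral_congr_ae (Eventually.of_forall fun x => ?_)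
  simp only [smul_eq_mul, mul_div_assoc]

theorem unit_bound' (h : ℝ → ℂ) (hi : Integrable h) (hr : rho pp h ≤ 1) :
    ∫⁻ ξ, ‖𝓕 h ξ‖ₑ ^ 4 ≤ 40 := by
  obtain ⟨g, hg, hgh⟩ := hi.aestronglyMeasurable
  have hgi : Integrable g := hi.congr hgh
  have hF : 𝓕 h = 𝓕 g := by
    funext ξ
    rw [Real.fourier_eq', Real.fourier_eq']
    refine integral_congr_ae ?_
    filter_upwards [hgh] with x hx
    rw [hx]
  rw [hF]
  refine unit_bound g hg.measurable hgi (le_trans (le_of_eq ?_) hr)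
  unfold rho
  congr 1
  · refine lintegral_congr_ae (ae_restrict_of_ae ?_)
    filter_upwards [hgh] with x hx
    rw [hx]
  · exact eLpNormEssSup_congr_ae (ae_restrict_of_ae hgh.symm)

theorem bounded : FourierBounded pp (fun _ => 4) := by
  refine ⟨3, fun f hf _ => ?_⟩
  have key : ∀ lam : ℝ, 0 < lam → rho pp (fun x => f x / lam) ≤ 1 →
      normV (fun _ => 4) (𝓕 f) ≤ ENNReal.ofReal (3 * lam) := by
    intro lam hlam hr
    unfold normV
    refine iInf₂_le (3 * lam) ⟨by positivity, ?_⟩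
    have h1 := unit_bound' (fun x => f x / lam) (hf.div_const _) hr
    have h2 : ∀ ξ, ‖𝓕 f ξ / ((3 * lam : ℝ) : ℂ)‖ₑ ^ ((4 : ℝ≥0∞).toReal) =
        ENNReal.ofReal (1 / 81) * ‖𝓕 (fun x => f x / lam) ξ‖ₑ ^ 4 := by
      intro ξ
      rw [fourier_div]
      have e1 : 𝓕 f ξ / ((3 * lam : ℝ) : ℂ) = (1 / 3 : ℂ) * (𝓕 f ξ / lam) := by
        push_cast
        have : (lam : ℂ) ≠ 0 := by exact_mod_cast hlam.ne'
        field_simp
      have e2 : (4 : ℝ≥0∞).toReal = ((4 : ℕ) : ℝ) := by norm_num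
      rw [e1, enorm_mul, e2, ENNReal.rpow_natCast, mul_pow]
      congr 1
      rw [← ofReal_norm, ← ENNReal.ofReal_pow (norm_nonneg _)]
      congr 1
      rw [norm_div, norm_one, Complex.norm_ofNat]
      norm_num
    unfold rho
    have hset : {x : ℝ | (4 : ℝ≥0∞) ≠ ∞} = univ := by ext x; simp
    have hset2 : {x : ℝ | (4 : ℝ≥0∞) = ∞} = ∅ := by ext x; simp
    rw [hset, hset2, Measure.restrict_univ, Measure.restrict_empty, eLpNormEssSup_measure_zero,
      add_zero]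
    simp_rw [h2]
    rw [lintegral_const_mul']
    · calc ENNReal.ofReal (1 / 81) * ∫⁻ ξ, ‖𝓕 (fun x => f x / lam) ξ‖ₑ ^ 4
          ≤ ENNReal.ofReal (1 / 81) * 40 := mul_le_mul' le_rfl h1
        _ = ENNReal.ofReal (40 / 81) := by
            rw [show (40 : ℝ≥0∞) = ENNReal.ofReal 40 by norm_num, ← ENNReal.ofReal_mul (by norm_num)]
            norm_num
        _ ≤ 1 := by rw [← ENNReal.ofReal_one]; exact ENNReal.ofReal_le_ofReal (by norm_num)
    · exact ENNReal.ofReal_ne_top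
  -- infimum over all `λ`
  conv_rhs => unfold normV
  have h3 : ((3 : ℝ≥0) : ℝ≥0∞) ≠ 0 := by norm_num
  rw [ENNReal.mul_iInf_of_ne h3 ENNReal.coe_ne_top]
  refine le_iInf fun lam => ?_
  rw [ENNReal.mul_iInf_of_ne h3 ENNReal.coe_ne_top]
  refine le_iInf fun hlam => ?_
  refine (key lam hlam.1 hlam.2).trans (le_of_eq ?_)
  rw [ENNReal.ofReal_mul (by norm_num)]
  norm_num

/-- **Theorem.** There are exponents `p` and `q` such that the Fourier transform maps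
`L^{p(·)}(ℝ)` boundedly to `L^{q(·)}(ℝ)`, but the constant function `1` does not belong to
`L^{r(·)}(ℝ)`, and so it does not belong to `L^{r(·)}(ℝ) ∩ L^{s(·)}(ℝ)`, where `r` and `s` are the
defect exponents. In the example `p` takes only the values `2` and `4/3`, `q = 4`, and `r` and `s`
are exponents, i.e. they take their values in `[1, ∞]`. -/
theorem result : ∃ p q : ℝ → ℝ≥0∞, Exponent p ∧ Exponent q ∧ FourierBounded p q ∧
    Exponent (defectR p) ∧ Exponent (defectS p q) ∧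
    ¬ MemV (defectR p) (fun _ => 1) ∧
    ¬ (MemV (defectR p) (fun _ => 1) ∧ MemV (defectS p q) (fun _ => 1)) ∧
    (∀ x, p x = 2 ∨ p x = ENNReal.ofReal (4 / 3)) ∧ ∀ x, q x = 4 := by
  classical
  have hS : defectS pp (fun _ => 4) = fun _ => ∞ := by
    funext x
    unfold defectS
    rw [pp_inf, ← ENNReal.ofReal_inv_of_pos (by norm_num), ← ENNReal.ofReal_one,
      ← ENNReal.ofReal_sub _ (by norm_num), show (4 : ℝ≥0∞) = ENNReal.ofReal 4 by norm_num,
      ← ENNReal.ofReal_inv_of_pos (by norm_num), ← ENNReal.ofReal_sub _ (by norm_num)]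
    norm_num
  have hR : defectR pp = fun x => if x ∈ AA then ENNReal.ofReal 4 else ∞ := by
    funext x
    by_cases h : x ∈ AA
    · rw [if_pos h, defectR_mem h]
    · rw [if_neg h]
      unfold defectR
      rw [pp_inf, pp_notMem h, tsub_self, ENNReal.inv_zero]
  refine ⟨pp, fun _ => 4, pp_exp, ⟨measurable_const, fun _ => by norm_num⟩, bounded, ?_, ?_,
    not_mem, fun h => not_mem h.1, fun x => ?_, fun _ => rfl⟩
  · rw [hR]
    refine ⟨Measurable.ite AA_meas measurable_const measurable_const, fun x => ?_⟩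
    simp only
    split_ifs
    · rw [← ENNReal.ofReal_one]; exact ENNReal.ofReal_le_ofReal (by norm_num)
    · exact le_top
  · rw [hS]; exact ⟨measurable_const, fun _ => le_top⟩
  · by_cases h : x ∈ AA
    · left; rw [pp_mem h]; norm_num
    · right; exact pp_notMem h

end Pool.Agent.Results.MP_598c7e_an.DefectNotIntegrable
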